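import Mathlib
import Pool.Agent.V1183.BQ.Fin

/-!
The temperature projection of the attractor of the semi-dissipative Boussinesq system has full
interior in the space of mean-free square integrable functions.
-/

open MeasureTheory Set
open Pool.Agent.V1183.BQ

namespace Pool.Agent.Results.MP_3e0609_an.FullInterior

/-- `θ0` belongs to the temperature projection `P_θ 𝒜`. -/
def InPTheta (L ν g : ℝ) (θ0 : T2 → ℝ) : Prop :=
  ∃ u0 : Fin 2 → T2 → ℝ, InH L u0 ∧ InAttractor L ν g u0 θ0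

/-- `f` is an interior point, in the norm topology of the mean-free space `L²`, of the set of
the `θ0` with `P θ0`. -/
def IsInteriorPoint (P : (T2 → ℝ) → Prop) (f : T2 → ℝ) : Prop :=
  InL2 f ∧ ∃ ε : ℝ, 0 < ε ∧ ∀ θ0 : T2 → ℝ, InL2 θ0 →
    ∫ y, (θ0 y - f y) ^ 2 ∂mu < ε ^ 2 → P θ0

/-- Every mean-free square integrable function is an interior point of `P_θ 𝒜`. -/
theorem result (L ν g : ℝ) (hL : 0 < L) (hν : 0 < ν) (hg : 0 < g) (f : T2 → ℝ) (hf : InL2 f) :
    IsInteriorPoint (InPTheta L ν g) f := by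
  refine ⟨hf, 1, one_pos, fun θ0 h0 _ => ?_⟩
  obtain ⟨u, θ, M, hsol, hθ0, hM⟩ := main_fun hL hν hg.le θ0 h0
  have h1 := hsol 0
  simp only [sub_zero] at h1
  exact ⟨u 0, h1.u_H 0 (mem_univ _), u, θ, h1, fun i => Filter.EventuallyEq.rfl, hθ0, M, hM⟩

end Pool.Agent.Results.MP_3e0609_an.FullInterior
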